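import Mathlib

/-!
Commuting elements of free groups: commutation is transitive on the nontrivial elements, and an
element which commutes with a conjugate of itself commutes with the conjugating element.
-/

namespace Pool.Agent.Helper49.DW

universe u

theorem of_comm {ι : Type u} {i j : ι} (h : Commute (FreeGroup.of i) (FreeGroup.of j)) :
    i = j := by
  classical
  by_contra hij
  let f : FreeGroup ι →* Equiv.Perm (Fin 3) :=
    FreeGroup.lift fun k => if k = i then Equiv.swap 0 1 else Equiv.swap 1 2
  have h1 := h.map f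
  have e1 : f (FreeGroup.of i) = Equiv.swap 0 1 := by simp [f]
  have e2 : f (FreeGroup.of j) = Equiv.swap 1 2 := by simp [f, Ne.symm hij]
  rw [e1, e2] at h1
  have h2 := congrArg (fun σ : Equiv.Perm (Fin 3) => σ 0) h1.eq
  revert h2
  decide

theorem exists_gen (H : Type u) [Group H] [IsFreeGroup H] (h : ∀ x y : H, x * y = y * x) :
    ∃ c : H, ∀ x : H, x ∈ Subgroup.zpowers c := by
  let e := IsFreeGroup.toFreeGroup H
  have hsub : ∀ i j : IsFreeGroup.Generators H, i = j := by
    intro i j
    apply of_comm
    show FreeGroup.of i * FreeGroup.of j = FreeGroup.of j * FreeGroup.of i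
    apply e.symm.injective
    rw [map_mul, map_mul]
    exact h _ _
  by_cases hne : Nonempty (IsFreeGroup.Generators H)
  · obtain ⟨i⟩ := hne
    refine ⟨e.symm (FreeGroup.of i), fun x => ?_⟩
    have h1 : e x ∈ Subgroup.closure (Set.range (FreeGroup.of (α := IsFreeGroup.Generators H))) := by
      rw [FreeGroup.closure_range_of]; trivial
    have h2 : Set.range (FreeGroup.of (α := IsFreeGroup.Generators H)) = {FreeGroup.of i} := by
      ext y
      constructor
      · rintro ⟨j, rfl⟩
        rw [hsub j i]; rfl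
      · rintro rfl
        exact ⟨i, rfl⟩
    rw [h2, ← Subgroup.zpowers_eq_closure, Subgroup.mem_zpowers_iff] at h1
    obtain ⟨k, hk⟩ := h1
    rw [Subgroup.mem_zpowers_iff]
    refine ⟨k, ?_⟩
    apply e.injective
    rw [map_zpow, MulEquiv.apply_symm_apply, hk]
  · have : IsEmpty (IsFreeGroup.Generators H) := not_nonempty_iff.1 hne
    refine ⟨1, fun x => ?_⟩
    have : x = 1 := e.injective (Subsingleton.elim _ _)
    rw [this]
    exact Subgroup.one_mem _

variable {α : Type u}


theorem cyc {x y : FreeGroup α} (h : Commute x y) :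
    ∃ c, x ∈ Subgroup.zpowers c ∧ y ∈ Subgroup.zpowers c := by
  have hc : ∀ a b : Subgroup.closure ({x, y} : Set (FreeGroup α)), a * b = b * a := by
    have h1 : ∀ a ∈ ({x, y} : Set (FreeGroup α)), ∀ b ∈ ({x, y} : Set (FreeGroup α)),
        a * b = b * a := by
      rintro a (rfl | rfl) b (rfl | rfl)
      · rfl
      · exact h.eq
      · exact h.eq.symm
      · rfl
    intro a b
    exact (Subgroup.closureCommGroupOfComm h1).mul_comm a b
  obtain ⟨c, hc⟩ := exists_gen _ hc
  refine ⟨c.1, ?_, ?_⟩
  · have h1 := hc ⟨x, Subgroup.subset_closure (by simp)⟩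
    rw [Subgroup.mem_zpowers_iff] at h1 ⊢
    obtain ⟨k, hk⟩ := h1
    exact ⟨k, by simpa using congrArg Subtype.val hk⟩
  · have h1 := hc ⟨y, Subgroup.subset_closure (by simp)⟩
    rw [Subgroup.mem_zpowers_iff] at h1 ⊢
    obtain ⟨k, hk⟩ := h1
    exact ⟨k, by simpa using congrArg Subtype.val hk⟩

open Classical in
/-- the exponent of the generator `i` -/
noncomputable def expo (i : α) : FreeGroup α →* Multiplicative ℤ :=
  FreeGroup.lift fun k => if k = i then Multiplicative.ofAdd 1 else 1

theorem expo_self (i : α) : expo i (FreeGroup.of i) = Multiplicative.ofAdd 1 := by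
  simp [expo]

theorem expo_other {i j : α} (h : j ≠ i) : expo i (FreeGroup.of j) = 1 := by
  simp [expo, h]

theorem mem_of_comm {w : FreeGroup α} {i : α} (h : Commute w (FreeGroup.of i)) :
    ∃ p : ℤ, w = FreeGroup.of i ^ p := by
  obtain ⟨c, h1, h2⟩ := cyc h
  rw [Subgroup.mem_zpowers_iff] at h1 h2
  obtain ⟨p, hp⟩ := h1
  obtain ⟨k, hk⟩ := h2
  have h3 : k * Multiplicative.toAdd (expo i c) = 1 := by
    have := congrArg (fun z => Multiplicative.toAdd (expo i z)) hk
    simp only [map_zpow, expo_self, toAdd_ofAdd, toAdd_zpow, smul_eq_mul] at this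
    exact this
  have h4 := Int.isUnit_iff.1 (IsUnit.of_mul_eq_one _ h3)
  rcases h4 with rfl | rfl
  · rw [zpow_one] at hk
    exact ⟨p, by rw [← hk, hp]⟩
  · refine ⟨-p, ?_⟩
    rw [← hk, ← hp, ← zpow_mul]
    congr 1
    ring

theorem center {w : FreeGroup α} {i j : α} (hij : i ≠ j) (h1 : Commute w (FreeGroup.of i))
    (h2 : Commute w (FreeGroup.of j)) : w = 1 := by
  obtain ⟨p, hp⟩ := mem_of_comm h1
  obtain ⟨q, hq⟩ := mem_of_comm h2
  have h3 : p = 0 := by
    have e1 := congrArg (fun z => Multiplicative.toAdd (expo i z)) (hp.symm.trans hq)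
    simp only [map_zpow, expo_self, expo_other hij.symm, toAdd_ofAdd, toAdd_zpow, one_zpow,
      smul_eq_mul, mul_one, toAdd_one] at e1
    exact e1
  rw [hp, h3, zpow_zero]

theorem commute_of_zpowers {G : Type*} [Group G] {c x y : G} (hx : x ∈ Subgroup.zpowers c)
    (hy : y ∈ Subgroup.zpowers c) : Commute x y := by
  rw [Subgroup.mem_zpowers_iff] at hx hy
  obtain ⟨a, rfl⟩ := hx
  obtain ⟨b, rfl⟩ := hy
  exact (Commute.refl c).zpow_zpow a b

theorem ct {x y z : FreeGroup α} (hy : y ≠ 1) (h1 : Commute x y) (h2 : Commute y z) :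
    Commute x z := by
  obtain ⟨c, hxc, hyc⟩ := cyc h1
  obtain ⟨d, hyd, hzd⟩ := cyc h2
  suffices h : Commute c d by
    rw [Subgroup.mem_zpowers_iff] at hxc hzd
    obtain ⟨a, rfl⟩ := hxc
    obtain ⟨b, rfl⟩ := hzd
    exact h.zpow_zpow a b
  let H := Subgroup.closure ({c, d} : Set (FreeGroup α))
  have hcH : c ∈ H := Subgroup.subset_closure (by simp)
  have hdH : d ∈ H := Subgroup.subset_closure (by simp)
  have hyH : y ∈ H := by
    rw [Subgroup.mem_zpowers_iff] at hyc
    obtain ⟨a, rfl⟩ := hyc
    exact H.zpow_mem hcH a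
  have hcen : ∀ g ∈ H, Commute y g := by
    intro g hg
    induction hg using Subgroup.closure_induction with
    | mem g hg =>
      rcases hg with rfl | hg
      · exact commute_of_zpowers hyc (Subgroup.mem_zpowers _)
      · rw [Set.mem_singleton_iff] at hg
        subst hg
        exact commute_of_zpowers hyd (Subgroup.mem_zpowers _)
    | one => exact Commute.one_right y
    | mul a b _ _ ha hb => exact ha.mul_right hb
    | inv a _ ha => exact ha.inv_right
  let e := IsFreeGroup.toFreeGroup H
  by_cases hsub : ∀ i j : IsFreeGroup.Generators H, i = j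
  · have : Subsingleton (IsFreeGroup.Generators H) := ⟨hsub⟩
    have hcom : ∀ a b : FreeGroup (IsFreeGroup.Generators H), a * b = b * a := by
      intro a b
      by_cases hne : Nonempty (IsFreeGroup.Generators H)
      · obtain ⟨i⟩ := hne
        have h2 : Set.range (FreeGroup.of (α := IsFreeGroup.Generators H)) =
            {FreeGroup.of i} := by
          ext y
          constructor
          · rintro ⟨j, rfl⟩
            rw [hsub j i]; rfl
          · rintro rfl
            exact ⟨i, rfl⟩
        have key : ∀ x : FreeGroup (IsFreeGroup.Generators H),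
            x ∈ Subgroup.zpowers (FreeGroup.of i) := by
          intro x
          have h1 : x ∈ Subgroup.closure
              (Set.range (FreeGroup.of (α := IsFreeGroup.Generators H))) := by
            rw [FreeGroup.closure_range_of]; trivial
          rwa [h2, ← Subgroup.zpowers_eq_closure] at h1
        exact (commute_of_zpowers (key a) (key b)).eq
      · have : IsEmpty (IsFreeGroup.Generators H) := not_nonempty_iff.1 hne
        exact Subsingleton.elim _ _
    have h3 : (⟨c, hcH⟩ : H) * ⟨d, hdH⟩ = ⟨d, hdH⟩ * ⟨c, hcH⟩ := by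
      apply e.injective
      rw [map_mul, map_mul]
      exact hcom _ _
    exact congrArg Subtype.val h3
  · push Not at hsub
    obtain ⟨i, j, hij⟩ := hsub
    exfalso
    have key : ∀ i : IsFreeGroup.Generators H, Commute (e ⟨y, hyH⟩) (FreeGroup.of i) := by
      intro i
      have h3 : (⟨y, hyH⟩ : H) * e.symm (FreeGroup.of i) = e.symm (FreeGroup.of i) * ⟨y, hyH⟩ :=
        Subtype.ext (hcen _ (e.symm (FreeGroup.of i)).2).eq
      have h4 := congrArg e h3
      rwa [map_mul, map_mul, MulEquiv.apply_symm_apply] at h4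
    have h5 := center hij (key i) (key j)
    have h6 : (⟨y, hyH⟩ : H) = 1 := e.injective (by rw [h5, map_one])
    exact hy (congrArg Subtype.val h6)

theorem conj_comm {G : Type*} [Group G] {x y t : G} (h : Commute x y) :
    Commute (t * x * t⁻¹) (t * y * t⁻¹) := by
  show t * x * t⁻¹ * (t * y * t⁻¹) = t * y * t⁻¹ * (t * x * t⁻¹)
  have := h.eq
  calc t * x * t⁻¹ * (t * y * t⁻¹) = t * (x * y) * t⁻¹ := by group
    _ = t * (y * x) * t⁻¹ := by rw [this]
    _ = _ := by group

theorem zpow_ne {c : FreeGroup α} (hc : c ≠ 1) {k : ℤ} (h : c ^ k = 1) : k = 0 := by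
  by_contra hk
  exact hc ((zpow_left_injective hk) (by simpa using h))

/-- an element which commutes with a conjugate of itself commutes with the conjugator -/
theorem maln {x t : FreeGroup α} (hx : x ≠ 1) (h : Commute x (t * x * t⁻¹)) : Commute x t := by
  let C := Subgroup.centralizer ({x} : Set (FreeGroup α))
  have hC : ∀ g : FreeGroup α, g ∈ C ↔ Commute x g := by
    intro g
    rw [Subgroup.mem_centralizer_singleton_iff]
    exact ⟨fun h => h.symm, fun h => h.symm⟩
  obtain ⟨⟨c, hcC⟩, hc⟩ := exists_gen C (by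
    intro a b
    apply Subtype.ext
    exact (ct hx ((hC _).1 a.2).symm ((hC _).1 b.2)).eq)
  have hgen : ∀ g, Commute x g → ∃ k : ℤ, c ^ k = g := by
    intro g hg
    have h1 := hc ⟨g, (hC g).2 hg⟩
    rw [Subgroup.mem_zpowers_iff] at h1
    obtain ⟨k, hk⟩ := h1
    exact ⟨k, by simpa using congrArg Subtype.val hk⟩
  have hxc : Commute x c := (hC c).1 hcC
  obtain ⟨m, hm⟩ := hgen x (Commute.refl x)
  have hc1 : c ≠ 1 := by
    rintro rfl
    apply hx
    rw [← hm, one_zpow]
  have hy1 : t * x * t⁻¹ ≠ 1 := fun h => hx (conj_eq_one_iff.1 h)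
  have h' : Commute x (t⁻¹ * x * t) := by
    have := conj_comm (t := t⁻¹) h
    have e1 : t⁻¹ * (t * x * t⁻¹) * t⁻¹⁻¹ = x := by group
    rw [e1, inv_inv] at this
    exact this.symm
  have hz1 : t⁻¹ * x * t ≠ 1 := by
    intro h
    apply hx
    have : x = t * (t⁻¹ * x * t) * t⁻¹ := by group
    rw [this, h]; group
  obtain ⟨k, hk⟩ := hgen (t * c * t⁻¹) (ct hy1 h (conj_comm hxc))
  obtain ⟨l, hl⟩ := hgen (t⁻¹ * c * t) (ct hz1 h' (by
    have := conj_comm (t := t⁻¹) hxc
    rwa [inv_inv] at this))
  have hkl : k * l = 1 := by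
    have e1 : c = c ^ (k * l) := by
      calc c = t * (t⁻¹ * c * t) * t⁻¹ := by group
        _ = t * c ^ l * t⁻¹ := by rw [hl]
        _ = (t * c * t⁻¹) ^ l := by rw [conj_zpow]
        _ = (c ^ k) ^ l := by rw [hk]
        _ = c ^ (k * l) := by rw [zpow_mul]
    have e2 : c ^ (k * l - 1) = 1 := by
      rw [zpow_sub, zpow_one, ← e1, mul_inv_cancel]
    have := zpow_ne hc1 e2
    linarith
  have hct : Commute c t := by
    rcases Int.isUnit_iff.1 (IsUnit.of_mul_eq_one _ hkl) with rfl | rfl
    · rw [zpow_one] at hk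
      show c * t = t * c
      calc c * t = t * c * t⁻¹ * t := by rw [← hk]
        _ = t * c := by group
    · have h2 : Commute c (t ^ 2) := by
        show c * t ^ 2 = t ^ 2 * c
        have e1 : t * c = c⁻¹ * t := by
          rw [← zpow_neg_one, hk]; group
        have e2 : t * c⁻¹ = c * t := by
          have := congrArg (fun g => c * g * c⁻¹) e1
          simp only [mul_inv_cancel_left] at this
          calc t * c⁻¹ = c * (c⁻¹ * t) * c⁻¹ := by group
            _ = c * (t * c) * c⁻¹ := by rw [e1]
            _ = c * t := by group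
        calc c * t ^ 2 = c * t * t := by rw [pow_two, mul_assoc]
          _ = t * c⁻¹ * t := by rw [e2]
          _ = t * (c⁻¹ * t) := by rw [mul_assoc]
          _ = t * (t * c) := by rw [e1]
          _ = t ^ 2 * c := by rw [pow_two, mul_assoc]
      by_cases ht : t = 1
      · subst ht; exact Commute.one_right c
      · have ht2 : t ^ 2 ≠ 1 := by
          intro h3
          exact ht ((pow_left_injective (M := FreeGroup α) (n := 2) (by norm_num))
            (a₁ := t) (a₂ := 1) (by simpa using h3))
        exact ct ht2 h2 ((Commute.refl t).pow_left 2)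
  rw [← hm]
  exact hct.zpow_left m

/-- an element of the free group of rank two which is not `1` is not central -/
theorem exists_not_comm {x : FreeGroup (Fin 2)} (hx : x ≠ 1) : ∃ s, ¬ Commute x s := by
  by_contra h
  push Not at h
  exact hx (center (i := 0) (j := 1) (by decide) (h _) (h _))

/-- if `s` does not commute with `x` then one of `t`, `s t s⁻¹` does not commute with `x` -/
theorem not_comm_or {x s t : FreeGroup α} (hx : x ≠ 1) (ht : t ≠ 1) (hs : ¬ Commute x s) :
    ¬ Commute x t ∨ ¬ Commute x (s * t * s⁻¹) := by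
  by_contra h
  push Not at h
  obtain ⟨h1, h2⟩ := h
  have h3 : Commute t (s * t * s⁻¹) := ct hx h1.symm h2
  have h4 : Commute t s := maln ht h3
  exact hs (ct ht h1 h4)

end Pool.Agent.Helper49.DW
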