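import Mathlib
import Pool.Agent.Helper9.UGap.LG
import Pool.Agent.Helper49.DW.Free

/-!
Unitary representations of the free group of rank two in a tracial algebra: discreteness is
detected by the action by conjugation on an invariant set over which the group is nowhere free.
-/

namespace Pool.Agent.Helper49.DW.Op

open scoped InnerProductSpace ComplexConjugate
open Pool.Agent.Helper9.UGap

noncomputable section

variable {E : Type*} [NormedAddCommGroup E] [InnerProductSpace ℂ E] [CompleteSpace E]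
variable (φ : F2 →* unitary (E →L[ℂ] E)) (δ : E)

/-- how far `w` is from `1` on `q` -/
def aa (w : F2) (q : E →L[ℂ] E) : ℝ := ‖(U φ w) (q δ) - q δ‖

/-- how much the conjugation by `w` moves `f` -/
def bb (w : F2) (f : E →L[ℂ] E) : ℝ := ‖cj φ w f δ - f δ‖

theorem aa_mul (g h : F2) (q : E →L[ℂ] E) : aa φ δ (g * h) q ≤ aa φ δ g q + aa φ δ h q := by
  unfold aa
  have e : (U φ (g * h)) (q δ) - q δ =
      U φ g (U φ h (q δ) - q δ) + (U φ g (q δ) - q δ) := by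
    rw [U_mul, mul_app, map_sub]
    abel
  rw [e]
  refine (norm_add_le _ _).trans ?_
  rw [U_norm_apply]
  linarith

theorem U_inv_app (g : F2) (x : E) : U φ g⁻¹ (U φ g x) = x := by
  have := congrArg (fun T : E →L[ℂ] E => T x) (U_inv_mul φ g)
  simpa only [mul_app, one_app] using this

theorem U_app_inv (g : F2) (x : E) : U φ g (U φ g⁻¹ x) = x := by
  have := congrArg (fun T : E →L[ℂ] E => T x) (U_mul_inv φ g)
  simpa only [mul_app, one_app] using this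

theorem aa_inv (g : F2) (q : E →L[ℂ] E) : aa φ δ g⁻¹ q = aa φ δ g q := by
  unfold aa
  have e : U φ g⁻¹ (q δ) - q δ = - U φ g⁻¹ (U φ g (q δ) - q δ) := by
    rw [map_sub, U_inv_app]
    abel
  rw [e, norm_neg, U_norm_apply]

variable {P : (E →L[ℂ] E) → Prop} {δ} (hS : Std P δ) (hP : ∀ w, P (U φ w))
include hS hP

theorem bb_mul (g h : F2) {f : E →L[ℂ] E} (hf : P f) :
    bb φ δ (g * h) f ≤ bb φ δ g f + bb φ δ h f := by
  unfold bb
  have e : cj φ (g * h) f δ - f δ = cj φ g (cj φ h f - f) δ + (cj φ g f δ - f δ) := by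
    rw [cj_sub, cj_cj, sub_apply']
    abel
  rw [e]
  refine (norm_add_le _ _).trans ?_
  rw [norm_cj φ hS hP g (hS.sub (P_cj φ hS hP h hf) hf)]
  have : (cj φ h f - f) δ = cj φ h f δ - f δ := rfl
  rw [this]
  linarith
where
  sub_apply' {S T : E →L[ℂ] E} {x : E} : (S - T) x = S x - T x := rfl

theorem bb_inv (g : F2) {f : E →L[ℂ] E} (hf : P f) : bb φ δ g⁻¹ f = bb φ δ g f := by
  unfold bb
  have e : cj φ g⁻¹ f δ - f δ = - (cj φ g⁻¹ (cj φ g f - f) δ) := by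
    rw [cj_sub, cj_cj, inv_mul_cancel]
    have h1 : cj φ 1 f = f := by simp [cj, U_one]
    rw [h1]
    show _ = - ((f - cj φ g⁻¹ f) δ)
    show _ = - (f δ - cj φ g⁻¹ f δ)
    abel
  rw [e, norm_neg, norm_cj φ hS hP g⁻¹ (hS.sub (P_cj φ hS hP g hf) hf)]
  rfl

theorem bb_conj (g h : F2) {f : E →L[ℂ] E} (hf : P f) :
    bb φ δ (h * g * h⁻¹) f = bb φ δ g (cj φ h⁻¹ f) := by
  unfold bb
  have e : cj φ (h * g * h⁻¹) f δ - f δ = cj φ h (cj φ g (cj φ h⁻¹ f) - cj φ h⁻¹ f) δ := by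
    rw [cj_sub, cj_cj, cj_cj, cj_cj, mul_inv_cancel]
    have h1 : cj φ 1 f = f := by simp [cj, U_one]
    rw [h1]
    rfl
  rw [e, norm_cj φ hS hP h (hS.sub (P_cj φ hS hP g (P_cj φ hS hP _ hf)) (P_cj φ hS hP _ hf))]
  rfl

theorem aa_conj (g h : F2) {q : E →L[ℂ] E} (hq : P q) :
    aa φ δ (h * g * h⁻¹) q ≤ aa φ δ g q + 2 * bb φ δ h q := by
  -- `(hgh⁻¹ - 1) q = h (g - 1) (h⁻¹ q h) h⁻¹`
  set f := cj φ h⁻¹ q with hf
  have hPf : P f := P_cj φ hS hP _ hq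
  have e : (U φ (h * g * h⁻¹)) (q δ) - q δ = cj φ h (U φ g * f - f) δ := by
    have h1 : cj φ h (U φ g * f) = U φ (h * g * h⁻¹) * q := by
      rw [cj_mul, cj_U, hf, cj_cj, mul_inv_cancel]
      have h1 : cj φ 1 q = q := by simp [cj, U_one]
      rw [h1]
    have h2 : cj φ h f = q := by
      rw [hf, cj_cj, mul_inv_cancel]
      simp [cj, U_one]
    rw [cj_sub, h1, h2]
    rfl
  unfold aa
  rw [e, norm_cj φ hS hP h (hS.sub (hS.mul (hP g) hPf) hPf)]
  have e2 : (U φ g * f - f) δ = (U φ g (q δ) - q δ) + (U φ g (f δ - q δ) - (f δ - q δ)) := by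
    show U φ g (f δ) - f δ = _
    rw [map_sub]
    abel
  rw [e2]
  have h3 : ‖f δ - q δ‖ = bb φ δ h q := by
    rw [← bb_inv φ hS hP h hq]
    rfl
  calc ‖(U φ g (q δ) - q δ) + (U φ g (f δ - q δ) - (f δ - q δ))‖
      ≤ ‖U φ g (q δ) - q δ‖ + ‖U φ g (f δ - q δ) - (f δ - q δ)‖ := norm_add_le _ _
    _ ≤ ‖U φ g (q δ) - q δ‖ + (‖U φ g (f δ - q δ)‖ + ‖f δ - q δ‖) := by
        gcongr; exact norm_sub_le _ _
    _ = _ := by rw [U_norm_apply, h3]; ring

theorem aa_comm (g h : F2) {q : E →L[ℂ] E} (hq : P q) :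
    aa φ δ (g * (h * g⁻¹ * h⁻¹)) q ≤ 2 * aa φ δ g q + 2 * bb φ δ h q := by
  have h1 := aa_mul φ δ g (h * g⁻¹ * h⁻¹) q
  have h2 := aa_conj φ hS hP g⁻¹ h hq
  rw [aa_inv] at h2
  linarith

theorem aa_comm' (g h : F2) {q : E →L[ℂ] E} (hq : P q) :
    aa φ δ (g * (h * g⁻¹ * h⁻¹)) q ≤ 2 * aa φ δ h q + 2 * bb φ δ g q := by
  have h1 := aa_mul φ δ (g * h * g⁻¹) h⁻¹ q
  have h2 := aa_conj φ hS hP h g hq
  rw [aa_inv] at h1
  have e : g * (h * g⁻¹ * h⁻¹) = g * h * g⁻¹ * h⁻¹ := by group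
  rw [e]
  linarith

theorem bb_comm (g h : F2) {f : E →L[ℂ] E} (hf : P f) :
    bb φ δ (g * (h * g⁻¹ * h⁻¹)) f ≤ 2 * bb φ δ g f + 2 * bb φ δ h f := by
  have h1 := bb_mul φ hS hP g (h * g⁻¹ * h⁻¹) hf
  have h2 := bb_mul φ hS hP (h * g⁻¹) h⁻¹ hf
  have h3 := bb_mul φ hS hP h g⁻¹ hf
  rw [bb_inv φ hS hP _ hf] at h2 h3
  linarith

variable {B : Set (E →L[ℂ] E)} (hB : ∀ f ∈ B, P f) (hBc : ∀ w, ∀ f ∈ B, cj φ w f ∈ B)
  (hN : ∀ J : Finset (E →L[ℂ] E), ↑J ⊆ B → ∀ ε : ℝ, 0 < ε →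
    ∃ t, t ≠ 1 ∧ ∀ f ∈ J, bb φ δ t f < ε)
include hB hBc hN

theorem exists_small {x : F2} (hx : x ≠ 1) (J : Finset (E →L[ℂ] E)) (hJ : ↑J ⊆ B) (ε : ℝ)
    (hε : 0 < ε) : ∃ t, ¬ Commute x t ∧ ∀ f ∈ J, bb φ δ t f < ε := by
  classical
  obtain ⟨s, hs⟩ := exists_not_comm hx
  obtain ⟨t, ht1, ht⟩ := hN (J ∪ J.image fun f => cj φ s⁻¹ f) (by
    intro f hf
    rw [Finset.mem_coe, Finset.mem_union, Finset.mem_image] at hf
    rcases hf with hf | ⟨f', hf', rfl⟩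
    · exact hJ hf
    · exact hBc _ _ (hJ hf')) ε hε
  rcases not_comm_or hx ht1 hs with h | h
  · exact ⟨t, h, fun f hf => ht f (Finset.mem_union_left _ hf)⟩
  · refine ⟨s * t * s⁻¹, h, fun f hf => ?_⟩
    rw [bb_conj φ hS hP _ _ (hB f (hJ hf))]
    exact ht _ (Finset.mem_union_right _ (Finset.mem_image_of_mem _ hf))

theorem comm_ne {g h : F2} (hgh : ¬ Commute g h) : g * (h * g⁻¹ * h⁻¹) ≠ 1 := by
  intro h0
  apply hgh
  have h2 : g * h * g⁻¹ * h⁻¹ = 1 := by rw [← h0]; group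
  have h3 : g * h * g⁻¹ = h := mul_inv_eq_one.1 h2
  show g * h = h * g
  exact mul_inv_eq_iff_eq_mul.1 h3

/-- `q` is a slot: `q ∈ B` and `U(x) q ∈ B` for some `x ≠ 1` -/
def Slot (φ : F2 →* unitary (E →L[ℂ] E)) (B : Set (E →L[ℂ] E)) (q : E →L[ℂ] E) : Prop :=
  q ∈ B ∧ ∃ x, x ≠ 1 ∧ U φ x * q ∈ B

theorem single {q : E →L[ℂ] E} (hq : Slot φ B q) (J : Finset (E →L[ℂ] E)) (hJ : ↑J ⊆ B) (ε : ℝ)
    (hε : 0 < ε) : ∃ w, w ≠ 1 ∧ aa φ δ w q < ε ∧ ∀ f ∈ J, bb φ δ w f < ε := by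
  classical
  obtain ⟨hqB, x, hx, hxq⟩ := hq
  have hy : x⁻¹ ≠ 1 := fun h => hx (inv_eq_one.1 h)
  set y := x⁻¹ with hyx
  set p := U φ x * q with hp
  obtain ⟨t, ht1, ht⟩ := exists_small φ hS hP hB hBc hN hy
    (insert q (insert p (J ∪ J.image fun f => cj φ y⁻¹ f))) (by
    intro f hf
    rw [Finset.mem_coe, Finset.mem_insert, Finset.mem_insert, Finset.mem_union,
      Finset.mem_image] at hf
    rcases hf with rfl | rfl | hf | ⟨f', hf', rfl⟩
    · exact hqB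
    · exact hxq
    · exact hJ hf
    · exact hBc _ _ (hJ hf')) (ε / 2) (by positivity)
  refine ⟨y * t * y⁻¹ * t⁻¹, ?_, ?_, ?_⟩
  · intro h
    apply ht1
    have h3 : y * t * y⁻¹ = t := mul_inv_eq_one.1 h
    show y * t = t * y
    exact mul_inv_eq_iff_eq_mul.1 h3
  · have hPq := hB q hqB
    have hPp := hB p hxq
    -- `(w - 1) q = y t y⁻¹ (t⁻¹ q - q t⁻¹) + y (t p t⁻¹ - p)`
    have e : (U φ (y * t * y⁻¹ * t⁻¹)) (q δ) - q δ =
        U φ (y * t * y⁻¹) ((U φ t⁻¹) (q δ) - q (U φ t⁻¹ δ)) +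
        U φ y (cj φ t p δ - p δ) := by
      have e1 : U φ (y * t * y⁻¹ * t⁻¹) (q δ) = U φ (y * t * y⁻¹) (U φ t⁻¹ (q δ)) := by
        rw [U_mul]; rfl
      have e2 : U φ y (cj φ t p δ) = U φ (y * t * y⁻¹) (q (U φ t⁻¹ δ)) := by
        have : cj φ t p δ = U φ t (U φ x (q (U φ t⁻¹ δ))) := rfl
        rw [this, U_mul, U_mul, hyx, inv_inv]
        rfl
      have e3 : U φ y (p δ) = q δ := by
        have : p δ = U φ x (q δ) := rfl
        rw [this, hyx, U_inv_app]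
      rw [map_sub, map_sub, e1, e2, e3]
      abel
    have h1 : ‖(U φ t⁻¹) (q δ) - q (U φ t⁻¹ δ)‖ = bb φ δ t q := by
      rw [← bb_inv φ hS hP t hPq]
      have hZ : P (U φ t⁻¹ * q - q * U φ t⁻¹) :=
        hS.sub (hS.mul (hP _) hPq) (hS.mul hPq (hP _))
      have h2 := norm_mul_U φ hS hP hZ t
      have h3 : (U φ t⁻¹ * q - q * U φ t⁻¹) (U φ t δ) = cj φ t⁻¹ q δ - q δ := by
        show U φ t⁻¹ (q (U φ t δ)) - q (U φ t⁻¹ (U φ t δ)) = _
        rw [U_inv_app]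
        simp only [cj, inv_inv, mul_app]
      rw [h3] at h2
      exact h2.symm
    have h4 := ht q (Finset.mem_insert_self _ _)
    have h5 := ht p (Finset.mem_insert_of_mem (Finset.mem_insert_self _ _))
    have h6 : aa φ δ (y * t * y⁻¹ * t⁻¹) q ≤ bb φ δ t q + bb φ δ t p := by
      unfold aa
      rw [e]
      refine (norm_add_le _ _).trans ?_
      rw [U_norm_apply, U_norm_apply, h1]
      exact le_rfl
    linarith
  · intro f hf
    have hPf := hB f (hJ hf)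
    have h1 := bb_mul φ hS hP (y * t * y⁻¹) t⁻¹ hPf
    rw [bb_inv φ hS hP _ hPf, bb_conj φ hS hP _ _ hPf] at h1
    have h2 := ht f (Finset.mem_insert_of_mem (Finset.mem_insert_of_mem
      (Finset.mem_union_left _ hf)))
    have h3 := ht (cj φ y⁻¹ f) (Finset.mem_insert_of_mem (Finset.mem_insert_of_mem
      (Finset.mem_union_right _ (Finset.mem_image_of_mem _ hf))))
    linarith

theorem many (l : List (E →L[ℂ] E)) : (∀ q ∈ l, Slot φ B q) →
    ∀ (J : Finset (E →L[ℂ] E)), ↑J ⊆ B → ∀ ε : ℝ, 0 < ε →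
    ∃ w, w ≠ 1 ∧ (∀ q ∈ l, aa φ δ w q < ε) ∧ ∀ f ∈ J, bb φ δ w f < ε := by
  classical
  induction l with
  | nil =>
    intro _ J hJ ε hε
    obtain ⟨t, ht1, ht⟩ := hN J hJ ε hε
    exact ⟨t, ht1, by simp, ht⟩
  | cons q l ih =>
    intro hl J hJ ε hε
    have hq : Slot φ B q := hl q List.mem_cons_self
    have hl' : ∀ q ∈ l, Slot φ B q := fun r hr => hl r (List.mem_cons_of_mem _ hr)
    set J' : Finset (E →L[ℂ] E) := insert q (l.toFinset ∪ J) with hJ'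
    have hJ'B : ↑J' ⊆ B := by
      intro f hf
      rw [Finset.mem_coe, hJ', Finset.mem_insert, Finset.mem_union, List.mem_toFinset] at hf
      rcases hf with rfl | hf | hf
      · exact hq.1
      · exact (hl' f hf).1
      · exact hJ hf
    set e : ℝ := ε / 16 with he
    have he0 : 0 < e := by positivity
    obtain ⟨w, hw1, hwa, hwb⟩ := single φ hS hP hB hBc hN hq J' hJ'B e he0
    obtain ⟨v, hv1, hva, hvb⟩ := ih hl' J' hJ'B e he0
    have hqJ' : q ∈ J' := Finset.mem_insert_self _ _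
    have hlJ' : ∀ r ∈ l, r ∈ J' := fun r hr =>
      Finset.mem_insert_of_mem (Finset.mem_union_left _ (List.mem_toFinset.2 hr))
    have hJJ' : ∀ f ∈ J, f ∈ J' := fun y hy =>
      Finset.mem_insert_of_mem (Finset.mem_union_right _ hy)
    obtain ⟨u, hwu, hua, hub⟩ : ∃ u, ¬ Commute w u ∧ (∀ r ∈ l, aa φ δ u r ≤ 3 * e) ∧
        ∀ f ∈ J', bb φ δ u f ≤ 3 * e := by
      by_cases hc : Commute w v
      · obtain ⟨s, hs, hsb⟩ := exists_small φ hS hP hB hBc hN hw1 J' hJ'B e he0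
        refine ⟨s * v * s⁻¹, ?_, ?_, ?_⟩
        · intro h
          apply hs
          have h3 : Commute v (s * v * s⁻¹) := ct hw1 hc.symm h
          exact ct hv1 hc (maln hv1 h3)
        · intro r hr
          have h1 := aa_conj φ hS hP v s (hB r (hl' r hr).1)
          have h2 := hsb r (hlJ' r hr)
          have h3 := hva r hr
          linarith
        · intro f hf
          have hPf := hB f (hJ'B hf)
          have h1 := bb_mul φ hS hP (s * v) s⁻¹ hPf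
          have h2 := bb_mul φ hS hP s v hPf
          rw [bb_inv φ hS hP _ hPf] at h1
          have h3 := hsb f hf
          have h4 := hvb f hf
          linarith
      · refine ⟨v, hc, ?_, ?_⟩
        · intro r hr
          have := hva r hr
          linarith
        · intro f hf
          have := hvb f hf
          linarith
    refine ⟨w * (u * w⁻¹ * u⁻¹), comm_ne φ hS hP hB hBc hN hwu, ?_, ?_⟩
    · intro r hr
      rcases List.mem_cons.1 hr with rfl | hr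
      · have h1 := aa_comm φ hS hP w u (hB r hq.1)
        have h2 := hub r hqJ'
        linarith
      · have h1 := aa_comm' φ hS hP w u (hB r (hl' r hr).1)
        have h2 := hua r hr
        have h3 := hwb r (hlJ' r hr)
        linarith
    · intro f hf
      have h1 := bb_comm φ hS hP w u (hB f (hJ hf))
      have h2 := hwb f (hJJ' f hf)
      have h3 := hub f (hJJ' f hf)
      linarith

omit hB hBc hN in
/-- the two-norm of an adjoint -/
theorem norm_star {T : E →L[ℂ] E} (hT : P T) : ‖(star T) δ‖ = ‖T δ‖ := by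
  have h1 := hS.trace hT (hS.star hT)
  have h2 : ⟪(star T) δ, (star T) δ⟫_ℂ = ⟪T δ, T δ⟫_ℂ := by
    rw [inner_star, inner_star, star_star]
    exact h1
  have h3 := inner_self_eq_norm_sq_to_K (𝕜 := ℂ) ((star T) δ)
  have h4 := inner_self_eq_norm_sq_to_K (𝕜 := ℂ) (T δ)
  rw [h2, h4] at h3
  have h5 : ‖(star T) δ‖ ^ 2 = ‖T δ‖ ^ 2 := by exact_mod_cast h3.symm
  exact (sq_eq_sq₀ (norm_nonneg _) (norm_nonneg _)).1 h5

omit hB hBc hN in
/-- right multiplication -/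
theorem norm_mul_right {T b : E →L[ℂ] E} (hT : P T) (hb : P b) : ‖T (b δ)‖ ≤ ‖T δ‖ * ‖b‖ := by
  have h1 : ‖(T * b) δ‖ = ‖(star (T * b)) δ‖ := (norm_star φ hS hP (hS.mul hT hb)).symm
  have h2 : (star (T * b)) δ = (star b) ((star T) δ) := by rw [star_mul]; rfl
  calc ‖T (b δ)‖ = ‖(T * b) δ‖ := rfl
    _ = ‖(star b) ((star T) δ)‖ := by rw [h1, h2]
    _ ≤ ‖star b‖ * ‖(star T) δ‖ := (star b).le_opNorm _
    _ = ‖T δ‖ * ‖b‖ := by
      rw [norm_star φ hS hP hT, mul_comm]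
      congr 1
      rw [ContinuousLinearMap.star_eq_adjoint]
      exact LinearIsometryEquiv.norm_map _ _

/-- **Main step.** -/
theorem core (hfree : ∀ ε : ℝ, 0 < ε → ∃ l : List ((E →L[ℂ] E) × (E →L[ℂ] E)),
      (∀ p ∈ l, Slot φ B p.1 ∧ P p.2) ∧ ‖δ - (l.map fun p => p.1 (p.2 δ)).sum‖ < ε)
    (ε : ℝ) (hε : 0 < ε) : ∃ w, w ≠ 1 ∧ ‖U φ w δ - δ‖ < ε := by
  obtain ⟨l, hl, hlε⟩ := hfree (ε / 3) (by positivity)
  set C : ℝ := (l.map fun p => ‖p.2‖).sum with hC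
  have hC0 : 0 ≤ C := by
    rw [hC]
    apply List.sum_nonneg
    intro c hc
    obtain ⟨p, _, rfl⟩ := List.mem_map.1 hc
    exact norm_nonneg _
  obtain ⟨w, hw1, hwa, -⟩ := many φ hS hP hB hBc hN (l.map Prod.fst) (by
    intro q hq
    obtain ⟨p, hp, rfl⟩ := List.mem_map.1 hq
    exact (hl p hp).1) ∅ (by simp) (ε / (3 * (C + 1))) (by positivity)
  refine ⟨w, hw1, ?_⟩
  set s := (l.map fun p => p.1 (p.2 δ)).sum with hs
  have h1 : ‖U φ w s - s‖ ≤ C * (ε / (3 * (C + 1))) := by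
    have key : ∀ l' : List ((E →L[ℂ] E) × (E →L[ℂ] E)), (∀ p ∈ l', p ∈ l) →
        ‖U φ w (l'.map fun p => p.1 (p.2 δ)).sum - (l'.map fun p => p.1 (p.2 δ)).sum‖ ≤
        (l'.map fun p => ‖p.2‖).sum * (ε / (3 * (C + 1))) := by
      intro l'
      induction l' with
      | nil => intro _; simp
      | cons p l' ih =>
        intro hp
        have hpl : p ∈ l := hp p List.mem_cons_self
        have h2 := ih fun r hr => hp r (List.mem_cons_of_mem _ hr)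
        simp only [List.map_cons, List.sum_cons, map_add, add_mul]
        have hPq : P p.1 := hB _ (hl p hpl).1.1
        have hPb : P p.2 := (hl p hpl).2
        have h3 : ‖U φ w (p.1 (p.2 δ)) - p.1 (p.2 δ)‖ ≤ ‖p.2‖ * (ε / (3 * (C + 1))) := by
          have h4 := norm_mul_right φ hS hP (T := U φ w * p.1 - p.1) (b := p.2)
            (hS.sub (hS.mul (hP w) hPq) hPq) hPb
          have h5 : (U φ w * p.1 - p.1) (p.2 δ) = U φ w (p.1 (p.2 δ)) - p.1 (p.2 δ) := rfl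
          have h6 : (U φ w * p.1 - p.1) δ = U φ w (p.1 δ) - p.1 δ := rfl
          rw [h5, h6] at h4
          have h7 : ‖U φ w (p.1 δ) - p.1 δ‖ < ε / (3 * (C + 1)) :=
            hwa p.1 (List.mem_map_of_mem hpl)
          calc ‖U φ w (p.1 (p.2 δ)) - p.1 (p.2 δ)‖ ≤ ‖U φ w (p.1 δ) - p.1 δ‖ * ‖p.2‖ := h4
            _ ≤ (ε / (3 * (C + 1))) * ‖p.2‖ := by gcongr
            _ = _ := mul_comm _ _
        calc _ = ‖(U φ w (p.1 (p.2 δ)) - p.1 (p.2 δ)) +
              (U φ w (l'.map fun p => p.1 (p.2 δ)).sum - (l'.map fun p => p.1 (p.2 δ)).sum)‖ := by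
              congr 1; abel
          _ ≤ _ := (norm_add_le _ _).trans (add_le_add h3 h2)
    exact key l fun _ h => h
  have h2 : U φ w δ - δ = (U φ w (δ - s) - (δ - s)) + (U φ w s - s) := by
    rw [map_sub]; abel
  have h3 : C * (ε / (3 * (C + 1))) < ε / 3 := by
    have : C * (ε / (3 * (C + 1))) = (ε / 3) * (C / (C + 1)) := by field_simp
    rw [this]
    have h4 : C / (C + 1) < 1 := by
      rw [div_lt_one (by positivity)]
      linarith
    have h5 : 0 < ε / 3 := by positivity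
    nlinarith
  calc ‖U φ w δ - δ‖ = ‖(U φ w (δ - s) - (δ - s)) + (U φ w s - s)‖ := by rw [h2]
    _ ≤ ‖U φ w (δ - s) - (δ - s)‖ + ‖U φ w s - s‖ := norm_add_le _ _
    _ ≤ (‖U φ w (δ - s)‖ + ‖δ - s‖) + ‖U φ w s - s‖ := by gcongr; exact norm_sub_le _ _
    _ = 2 * ‖δ - s‖ + ‖U φ w s - s‖ := by rw [U_norm_apply]; ring
    _ < ε := by linarith

omit hB hBc hN in
/-- the easy direction -/
theorem easy (t : F2) {f : E →L[ℂ] E} (hf : P f) :
    bb φ δ t f ≤ 2 * ‖f‖ * ‖U φ t δ - δ‖ := by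
  unfold bb
  have hU1 : P (U φ t - 1) := hS.sub (hP t) hS.one
  have h1 : ‖cj φ t f δ - f δ‖ = ‖(U φ t * f - f * U φ t) δ‖ := by
    have hZ : P (cj φ t f - f) := hS.sub (P_cj φ hS hP t hf) hf
    have h2 := norm_mul_U φ hS hP hZ t
    have h3 : (cj φ t f - f) (U φ t δ) = (U φ t * f - f * U φ t) δ := by
      show U φ t (f (U φ t⁻¹ (U φ t δ))) - f (U φ t δ) = _
      rw [U_inv_app]
      rfl
    rw [h3] at h2
    have h4 : (cj φ t f - f) δ = cj φ t f δ - f δ := rfl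
    rw [h4] at h2
    exact h2.symm
  have h5 : (U φ t * f - f * U φ t) δ = (U φ t - 1) (f δ) - f ((U φ t - 1) δ) := by
    show U φ t (f δ) - f (U φ t δ) = (U φ t (f δ) - f δ) - f (U φ t δ - δ)
    rw [map_sub]
    abel
  have h6 := norm_mul_right φ hS hP hU1 hf
  have h7 : (U φ t - 1) δ = U φ t δ - δ := rfl
  rw [h1, h5]
  calc ‖(U φ t - 1) (f δ) - f ((U φ t - 1) δ)‖
      ≤ ‖(U φ t - 1) (f δ)‖ + ‖f ((U φ t - 1) δ)‖ := norm_sub_le _ _
    _ ≤ ‖(U φ t - 1) δ‖ * ‖f‖ + ‖f‖ * ‖(U φ t - 1) δ‖ := add_le_add h6 (f.le_opNorm _)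
    _ = 2 * ‖f‖ * ‖U φ t δ - δ‖ := by rw [h7]; ring

end

end Pool.Agent.Helper49.DW.Op
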