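import Mathlib
import Pool.Agent.Helper49.DW.Op

/-!
`L(G)` is closed under adjoints; the theorem for `L(G)`.
-/

namespace Pool.Agent.Helper49.DW.Op

open scoped InnerProductSpace ComplexConjugate
open Pool.Agent.Helper9.UGap

noncomputable section

variable {G : Type*} [Group G]

theorem InL_star {T : lp (fun _ : G => ℂ) 2 →L[ℂ] lp (fun _ : G => ℂ) 2} (hT : InL T) :
    InL (star T) := by
  classical
  intro g f f' hff h
  have key : ∀ (a : G) (u : lp (fun _ : G => ℂ) 2), ((star T) u) a =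
      ∑' k : G, ⟪(T dl) (k * a⁻¹), u k⟫_ℂ := by
    intro a u
    have h1 : ((star T) u) a = ⟪(lp.single 2 a (1 : ℂ) : lp (fun _ : G => ℂ) 2), (star T) u⟫_ℂ := by
      rw [lp.inner_single_left]
      simp
    rw [h1, inner_star', star_star, lp.inner_eq_tsum]
    refine tsum_congr fun k => ?_
    rw [hT.single]
  rw [key, key, ← (Equiv.mulRight g).tsum_eq fun k => ⟪(T dl) (k * (h * g)⁻¹), f k⟫_ℂ]
  refine tsum_congr fun k => ?_
  show ⟪(T dl) (k * h⁻¹), f' k⟫_ℂ = ⟪(T dl) (k * g * (h * g)⁻¹), f (k * g)⟫_ℂ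
  rw [hff k, mul_inv_rev]
  congr 2
  group

end

end Pool.Agent.Helper49.DW.Op
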